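import Pool.Agent.Lib_MP_ab9402_ins.Core

/-!
# MP_ab9402_al: a nilpotent group of class three and an infinite two-generated nil semigroup in its semigroup variety
-/

set_option autoImplicit false

namespace Pool.Agent.Results.MP_ab9402_al.ClassThree

open Pool.Agent.Ab9402

theorem NG_class : ∃ _h : Group.IsNilpotent NG, Group.nilpotencyClass NG ≤ 3 := by
  have hA : Group.IsNilpotent HG := HG_nilpotent
  have k1 : projAb.ker ≤ Subgroup.center HG := by
    intro u hu
    rw [MonoidHom.mem_ker] at hu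
    have h : (u.n, u.b) = (0, 0) := Multiplicative.ofAdd.injective hu
    have h1 : u.n = 0 := congrArg Prod.fst h
    have h2 : u.b = 0 := congrArg Prod.snd h
    rw [Subgroup.mem_center_iff]
    intro g
    ext <;> simp [h1, h2]; ring
  have k2 : projHG.ker ≤ Subgroup.center NG := by
    intro u hu
    rw [MonoidHom.mem_ker] at hu
    have h1 : u.n = 0 := congrArg HG.n hu
    have h2 : u.b = 0 := congrArg HG.b hu
    have h3 : u.s1 = 0 := congrArg HG.s1 hu
    rw [Subgroup.mem_center_iff]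
    intro g
    ext <;> simp [h1, h2, h3] <;> ring
  have e1 : Group.nilpotencyClass HG ≤ Group.nilpotencyClass (Multiplicative (ℤ × ℤ)) + 1 :=
    Group.nilpotencyClass_le_of_ker_le_center projAb k1
  have e2 : Group.nilpotencyClass (Multiplicative (ℤ × ℤ)) ≤ 1 := CommGroup.nilpotencyClass_le_one
  have hN : Group.IsNilpotent NG := NG_nilpotent
  have e3 : Group.nilpotencyClass NG ≤ Group.nilpotencyClass HG + 1 :=
    Group.nilpotencyClass_le_of_ker_le_center projHG k2
  exact ⟨hN, by omega⟩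

theorem NG_pow (g : NG) (k : ℕ) : (g ^ k).n = k * g.n ∧ (g ^ k).b = k * g.b := by
  induction k with
  | zero => simp
  | succ k ih =>
    rw [pow_succ, NG.mul_n, NG.mul_b, ih.1, ih.2]
    push_cast
    constructor <;> ring

theorem NG_pow1 (g : NG) (h1 : g.n = 0) (h2 : g.b = 0) (k : ℕ) : (g ^ k).s1 = k * g.s1 ∧
    (g ^ k).s2 = k * g.s2 ∧ (g ^ k).s3 = k * g.s3 := by
  induction k with
  | zero => simp
  | succ k ih =>
    obtain ⟨i1, i2, i3⟩ := ih
    obtain ⟨j1, j2⟩ := NG_pow g k
    rw [h1, mul_zero] at j1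
    rw [h2, mul_zero] at j2
    rw [pow_succ, NG.mul_s1, NG.mul_s2, NG.mul_s3, i1, i2, i3, j1, j2, h1]
    push_cast
    refine ⟨by ring, by ring, by ring⟩

theorem NG_torsionFree (g : NG) (hg : g ≠ 1) (k : ℕ) (hk : 0 < k) : g ^ k ≠ 1 := by
  intro h
  apply hg
  have hk' : (k : ℤ) ≠ 0 := by exact_mod_cast hk.ne'
  obtain ⟨j1, j2⟩ := NG_pow g k
  rw [h, NG.one_n] at j1
  rw [h, NG.one_b] at j2
  have h1 : g.n = 0 := (mul_eq_zero.1 j1.symm).resolve_left hk'
  have h2 : g.b = 0 := (mul_eq_zero.1 j2.symm).resolve_left hk'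
  obtain ⟨i1, i2, i3⟩ := NG_pow1 g h1 h2 k
  rw [h, NG.one_s1] at i1
  rw [h, NG.one_s2] at i2
  rw [h, NG.one_s3] at i3
  have h3 : g.s1 = 0 := (mul_eq_zero.1 i1.symm).resolve_left hk'
  have h4 : g.s2 = 0 := (mul_eq_zero.1 i2.symm).resolve_left hk'
  have h5 : g.s3 = 0 := (mul_eq_zero.1 i3.symm).resolve_left hk'
  ext
  · rw [h1, NG.one_n]
  · rw [h2, NG.one_b]
  · rw [h3, NG.one_s1]
  · rw [h4, NG.one_s2]
  · rw [h5, NG.one_s3]

theorem lift_comp' {α A B : Type} [Semigroup A] [Semigroup B] (φ : A →ₙ* B)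
    (f : α → A) (u : FreeSemigroup α) :
    φ (FreeSemigroup.lift f u) = FreeSemigroup.lift (fun i => φ (f i)) u := by
  have : φ.comp (FreeSemigroup.lift f) = FreeSemigroup.lift (fun i => φ (f i)) := by
    apply FreeSemigroup.hom_ext
    funext i
    simp
  exact DFunLike.congr_fun this u

theorem FS_identities' (α : Type) (u v : FreeSemigroup α)
    (h : ∀ f : α → NG, FreeSemigroup.lift f u = FreeSemigroup.lift f v)
    (g : α → FS) : FreeSemigroup.lift g u = FreeSemigroup.lift g v := by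
  choose g' hg' using fun i => mkFS_surjective (g i)
  have hg : g = fun i => mkFS (g' i) := by
    funext i
    exact (hg' i).symm
  rw [hg, ← lift_comp', ← lift_comp', mkFS_eq]
  have hev : ev (toL (FreeSemigroup.lift g' u)) = ev (toL (FreeSemigroup.lift g' v)) := by
    have h1 := lift_comp' evS g' u
    have h2 := lift_comp' evS g' v
    have h3 : evS (FreeSemigroup.lift g' u) = evS (FreeSemigroup.lift g' v) := by
      rw [h1, h2]
      exact h _
    exact h3
  by_cases h1 : Mech (toL (FreeSemigroup.lift g' u))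
  · left
    exact toL_injective (mech_unique _ _ h1 hev)
  · by_cases h2 : Mech (toL (FreeSemigroup.lift g' v))
    · left
      exact (toL_injective (mech_unique _ _ h2 hev.symm)).symm
    · right
      exact ⟨h1, h2⟩

/-- the powers of an element, on the level of words -/
theorem pw_mem (u : FreeSemigroup Bool) (k : ℕ) : mkFS (pw u k) ∈ Subsemigroup.closure ({mkFS u} : Set FS) := by
  induction k with
  | zero => exact Subsemigroup.subset_closure rfl
  | succ k ih =>
    show mkFS (pw u k * u) ∈ _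
    rw [map_mul]
    exact Subsemigroup.mul_mem _ ih (Subsemigroup.subset_closure rfl)

theorem result :
    ∃ (G : Type) (_ : Group G) (_ : Group.IsNilpotent G), Group.nilpotencyClass G ≤ 3 ∧
      (∀ g : G, g ≠ 1 → ∀ k : ℕ, 0 < k → g ^ k ≠ 1) ∧
      ∃ (S : Type) (_ : Semigroup S) (a b z : S), Infinite S ∧
        (∀ s : S, s ∈ Subsemigroup.closure ({a, b} : Set S)) ∧
        (∀ s : S, z * s = z ∧ s * z = z) ∧
        (∀ s : S, (Subsemigroup.closure ({s} : Set S) : Set S).Finite ∧ z ∈ Subsemigroup.closure ({s} : Set S)) ∧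
        ∀ (α : Type) (u v : FreeSemigroup α),
          (∀ f : α → G, FreeSemigroup.lift f u = FreeSemigroup.lift f v) →
          ∀ g : α → S, FreeSemigroup.lift g u = FreeSemigroup.lift g v := by
  obtain ⟨hN, hc⟩ := NG_class
  obtain ⟨K, hK⟩ := not_mech_rep (toL (FreeSemigroup.of true)) (by simp [toL])
  have hz : ¬ Mech (toL (pw (FreeSemigroup.of true) K)) := by
    rw [pw_toL]
    exact hK K le_rfl
  refine ⟨NG, inferInstance, hN, hc, NG_torsionFree, FS, inferInstance, mkFS (FreeSemigroup.of true),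
    mkFS (FreeSemigroup.of false), mkFS (pw (FreeSemigroup.of true) K), FS_infinite, FS_gen, ?_, ?_, FS_identities'⟩
  · intro s
    obtain ⟨u, rfl⟩ := mkFS_surjective s
    rw [← map_mul, ← map_mul, mkFS_eq, mkFS_eq]
    refine ⟨Or.inr ⟨fun h => hz ?_, hz⟩, Or.inr ⟨fun h => hz ?_, hz⟩⟩
    · rw [toL_mul] at h
      exact h.left
    · rw [toL_mul] at h
      exact h.right
  · intro s
    refine ⟨FS_periodic s, ?_⟩
    obtain ⟨u, rfl⟩ := mkFS_surjective s
    obtain ⟨L, hL⟩ := not_mech_rep (toL u) (by simp [toL])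
    have h1 : mkFS (pw (FreeSemigroup.of true) K) = mkFS (pw u L) := by
      rw [mkFS_eq]
      refine Or.inr ⟨hz, ?_⟩
      rw [pw_toL]
      exact hL L le_rfl
    rw [h1]
    exact pw_mem u L

end Pool.Agent.Results.MP_ab9402_al.ClassThree
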